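import Pool.Agent.Lib_helper2.PT.COR
import Pool.Agent.Lib_helper2.PT.EPT
import Pool.Agent.Lib_helper2.PT.BR

/-! Polynomial-time EFX for three additive agents who are not nearly identical: the algorithm.
`Good`, `Part`, `val`, `ok`, `feas`, `efx`, `upd`, `tmin`, `put`, `lpt2`, `srt`, `goods` are those of
`Pool.Agent.EFX3` (file PT/ALG). -/

namespace Pool.Agent.EFD

open Pool.Agent.PTm Pool.Agent.EFX3

/-- halvings (in unary) of `x` until it is smaller than `B` -/
def cnt (B x : ℕ) : List Unit :=
  (x.bits.foldl (fun (s : ℕ × List Unit) (_ : Bool) =>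
    if decide (B ≤ s.1) = true then (s.1.div2, () :: s.2) else s) (x, [])).2

/-- `x` halved once for every element of `k` -/
def hlv (k : List Unit) (x : ℕ) : ℕ := k.foldl (fun (y : ℕ) (_ : Unit) => y.div2) x

/-- weight of a good for agent `i` -/
def wt (K : Fin 3 → List Unit) (i : Fin 3) (g : Good) : ℕ := hlv (K i) (g.2 i)

/-- weight of a bundle for agent `i` -/
def wsum (K : Fin 3 → List Unit) (i : Fin 3) (X : List Good) : ℕ := (X.map fun g => wt K i g).sum

def eqn (a b : ℕ) : Bool := decide (a ≤ b) && decide (b ≤ a)

def same1 (K : Fin 3 → List Unit) (i : Fin 3) (P Q : Part) : Bool :=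
  eqn (wsum K i (P 0)) (wsum K i (Q 0)) &&
    (eqn (wsum K i (P 1)) (wsum K i (Q 1)) && eqn (wsum K i (P 2)) (wsum K i (Q 2)))

/-- `P` and `Q` have the same nine weights -/
def same (K : Fin 3 → List Unit) (P Q : Part) : Bool :=
  same1 K 0 P Q && (same1 K 1 P Q && same1 K 2 P Q)

/-- insert `P` into `L` unless a triple with the same weights is present -/
def addNew (K : Fin 3 → List Unit) (L : List Part) (P : Part) : List Part :=
  if (L.all fun Q => !same K P Q) = true then P :: L else L

/-- all ways to put the good `g` into the triples of `L`, one representative for every key -/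
def expand (K : Fin 3 → List Unit) (g : Good) (L : List Part) : List Part :=
  L.foldl (fun M P => addNew K (addNew K (addNew K M (put P 0 g)) (put P 1 g)) (put P 2 g)) []

/-- the representatives for the goods of `N` -/
def reps (K : Fin 3 → List Unit) (N : List Good) : List Part :=
  N.foldl (fun L g => expand K g L) [fun _ => []]

/-- put all goods of `N` into bundle 2 -/
def dump (P : Part) (N : List Good) : Part := N.foldl (fun Q g => put Q 2 g) P

/-- one step of `tryP`: state = remaining goods, bundles, best allocation so far -/
def tstep (a : Fin 3) (s : List Good × Part × Part) : List Good × Part × Part :=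
  lcase s.1 s fun g N => (N, put s.2.1 (tmin a 2 s.2.1) g,
    upd s.2.2 (dump (put s.2.1 (tmin a 2 s.2.1) g) N))

/-- try all candidates which continue `P`, `N` = remaining goods -/
def tryP (a : Fin 3) (N : List Good) (P acc : Part) : Part :=
  (N.foldl (fun s (_ : Good) => tstep a s) (N, P, upd acc (dump P N))).2.2

/-- one stage: state = remaining goods, representatives, best allocation so far -/
def stage (a : Fin 3) (K : Fin 3 → List Unit) (s : List Good × List Part × Part) :
    List Good × List Part × Part :=
  lcase s.1 s fun g N => (N, expand K g s.2.1, s.2.1.foldl (fun acc P => tryP a s.1 P acc) s.2.2)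

/-- the state after all stages -/
def stages (a : Fin 3) (K : Fin 3 → List Unit) (N : List Good) (acc : Part) :
    List Good × List Part × Part :=
  N.foldl (fun s (_ : Good) => stage a K s) (N, [fun _ => []], acc)

/-- the run for agent `a`, `N` = the sorted goods -/
def run (a : Fin 3) (K : Fin 3 → List Unit) (N : List Good) (acc : Part) : Part :=
  (stages a K N acc).2.1.foldl (fun A P => upd A P) (stages a K N acc).2.2

/-- largest value of a good for agent `i` -/
def maxv (i : Fin 3) (L : List Good) : ℕ :=
  L.foldl (fun m g => if decide (m ≤ g.2 i) = true then g.2 i else m) 0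

/-- 16 times the number of goods -/
def B16 (L : List Good) : ℕ := L.foldl (fun n (_ : Good) => n + 16) 0

/-- the numbers of halvings -/
def KK (L : List Good) : Fin 3 → List Unit := fun i => cnt (B16 L) (maxv i L)

/-- the allocation found, with full goods -/
def best2 (I : List (Fin 3 → ℕ)) : Part :=
  run 2 (KK (goods I)) (srt 2 2 (goods I)) (run 1 (KK (goods I)) (srt 1 1 (goods I))
    (run 0 (KK (goods I)) (srt 0 0 (goods I)) ![goods I, [], []]))

/-- the complete algorithm -/
def alg2 (I : List (Fin 3 → ℕ)) : Fin 3 → List ℕ := fun i => (best2 I i).map Prod.fst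

/-- the candidate: the first `r` goods of `M` go to the poorer of the bundles 0, 1, the rest to 2 -/
def cand (a : Fin 3) (P : Part) (M : List Good) (r : ℕ) : Part :=
  dump (lpt2 a 2 P (M.take r)) (M.drop r)

end Pool.Agent.EFD
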