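import Pool.Agent.Lib_helper2.EFD.W.PF
import Pool.Agent.Lib_helper2.EFD.W.CC
import Pool.Agent.Lib_helper2.EFD.W.CD
import Pool.Agent.Lib_helper2.EFD.W.ME
import Pool.Agent.Lib_helper2.EFD.W.MF
import Pool.Agent.Lib_helper2.EFD.W.MG

/-! assembly: the algorithm `best2` finds an EFX allocation if some two agents are far apart -/

namespace Pool.Agent.EFD

open Pool.Agent.PTm Pool.Agent.EFX3

/-! ### goods, sorting -/

theorem mh_goods_fst (I : List (Fin 3 → ℕ)) : (goods I).map Prod.fst = List.range I.length := by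
  unfold goods
  rw [List.map_map]
  apply List.ext_getElem
  · simp
  · intro n h1 h2
    simp

theorem mh_goods_nodup (I : List (Fin 3 → ℕ)) : (goods I).Nodup := by
  apply List.Nodup.of_map Prod.fst
  rw [mh_goods_fst]
  exact List.nodup_range

theorem mh_goods_length (I : List (Fin 3 → ℕ)) : (goods I).length = I.length := by
  simp [goods]

theorem mh_mem_goods {I : List (Fin 3 → ℕ)} {g : Good} (h : g ∈ goods I) :
    g.1 < I.length ∧ I.getD g.1 0 = g.2 := by
  unfold goods at h
  rw [List.mem_map] at h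
  obtain ⟨p, hp, rfl⟩ := h
  rw [List.mem_zipIdx_iff_getElem?] at hp
  obtain ⟨h1, h2⟩ := List.getElem?_eq_some_iff.1 hp
  refine ⟨h1, ?_⟩
  simp only
  rw [List.getD_eq_getElem?_getD, hp]
  rfl

/-- the good number `k` -/
def gd (I : List (Fin 3 → ℕ)) (k : Fin I.length) : Good := (k.1, I.getD k.1 0)

theorem mh_gd_mem (I : List (Fin 3 → ℕ)) (k : Fin I.length) : gd I k ∈ goods I := by
  have h : k.1 ∈ (goods I).map Prod.fst := by
    rw [mh_goods_fst]; exact List.mem_range.2 k.2
  obtain ⟨g, hg, h1⟩ := List.mem_map.1 h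
  have h2 := mh_mem_goods hg
  have : g = gd I k := by
    unfold gd
    rw [← h1, h2.2]
  exact this ▸ hg

theorem mh_gd_inj (I : List (Fin 3 → ℕ)) : Function.Injective (gd I) := by
  intro k l h
  exact Fin.ext (congrArg Prod.fst h)

theorem mh_exists_gd {I : List (Fin 3 → ℕ)} {g : Good} (h : g ∈ goods I) :
    ∃ k, gd I k = g := by
  have h2 := mh_mem_goods h
  exact ⟨⟨g.1, h2.1⟩, Prod.ext rfl h2.2⟩

theorem mh_ins_cons (a b : Fin 3) (g h : Good) (t : List Good) :
    ins a b g (h :: t) = if before a b g h = true then g :: h :: t else h :: ins a b g t := rfl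

theorem mh_ins_perm (a b : Fin 3) (g : Good) : ∀ l, (ins a b g l).Perm (g :: l)
  | [] => List.Perm.refl _
  | h :: t => by
    rw [mh_ins_cons]
    split_ifs
    · exact List.Perm.refl _
    · exact ((mh_ins_perm a b g t).cons h).trans (List.Perm.swap g h t)

theorem mh_srt_perm (a b : Fin 3) : ∀ l, (srt a b l).Perm l
  | [] => List.Perm.refl _
  | g :: l => by
    show (ins a b g (srt a b l)).Perm (g :: l)
    exact (mh_ins_perm a b g _).trans ((mh_srt_perm a b l).cons g)

theorem mh_before_iff {a b : Fin 3} {g h : Good} :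
    before a b g h = true ↔ h.2 a < g.2 a ∨ (h.2 a ≤ g.2 a ∧ h.2 b ≤ g.2 b) := by
  simp [before]

theorem mh_ins_sorted (a : Fin 3) (g : Good) : ∀ l : List Good,
    l.Pairwise (fun g h => h.2 a ≤ g.2 a) → (ins a a g l).Pairwise (fun g h => h.2 a ≤ g.2 a)
  | [], _ => List.pairwise_singleton _ _
  | h :: t, hl => by
    rw [mh_ins_cons]
    have hl' := List.pairwise_cons.1 hl
    split_ifs with hb
    · rw [mh_before_iff] at hb
      have hb' : h.2 a ≤ g.2 a := by omega
      rw [List.pairwise_cons]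
      refine ⟨?_, hl⟩
      intro k hk
      rcases List.mem_cons.1 hk with rfl | hk
      · exact hb'
      · exact le_trans (hl'.1 k hk) hb'
    · rw [mh_before_iff] at hb
      rw [List.pairwise_cons]
      refine ⟨?_, mh_ins_sorted a g t hl'.2⟩
      intro k hk
      rcases List.mem_cons.1 ((mh_ins_perm a a g t).subset hk) with rfl | hk
      · omega
      · exact hl'.1 k hk

theorem mh_srt_sorted (a : Fin 3) : ∀ l : List Good,
    (srt a a l).Pairwise (fun g h => h.2 a ≤ g.2 a)
  | [] => List.Pairwise.nil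
  | g :: l => mh_ins_sorted a g _ (mh_srt_sorted a l)

/-! ### real values -/

/-- normalised value of a bundle -/
noncomputable def R (V : Fin 3 → ℝ) (i : Fin 3) (X : List Good) : ℝ := (val i X : ℝ) / V i

section real

variable {V : Fin 3 → ℝ}

theorem R_nil (i : Fin 3) : R V i [] = 0 := by simp [R]

theorem R_append (i : Fin 3) (X Y : List Good) : R V i (X ++ Y) = R V i X + R V i Y := by
  unfold R val
  rw [List.map_append, List.sum_append]
  push_cast
  ring

theorem R_perm {i : Fin 3} {X Y : List Good} (h : X.Perm Y) : R V i X = R V i Y := by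
  unfold R val
  rw [(h.map _).sum_eq]

theorem R_reverse (i : Fin 3) (X : List Good) : R V i X.reverse = R V i X :=
  R_perm (List.reverse_perm X)

theorem R_nonneg (hV : ∀ i, 0 < V i) (i : Fin 3) (X : List Good) : 0 ≤ R V i X :=
  div_nonneg (Nat.cast_nonneg _) (hV i).le

theorem R_le_iff (hV : ∀ i, 0 < V i) {i : Fin 3} {X Y : List Good} :
    R V i X ≤ R V i Y ↔ val i X ≤ val i Y := by
  unfold R
  rw [div_le_div_iff_of_pos_right (hV i)]
  exact Nat.cast_le

theorem ok_of_R (hV : ∀ i, 0 < V i) {i : Fin 3} {X Y : List Good} (h : R V i Y ≤ R V i X) :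
    ok i X Y = true := ok_of_le ((R_le_iff hV).1 h)

end real

/-- sums over lists of different goods of the instance -/
theorem mh_sum (I : List (Fin 3 → ℕ)) (X : List Good) (hX : X.Nodup) (hg : ∀ g ∈ X, g ∈ goods I)
    (f : Good → ℝ) : (X.map f).sum = ∑ k : Fin I.length with gd I k ∈ X, f (gd I k) := by
  classical
  have h1 : (X.map f).sum = ∑ g ∈ X.toFinset, f g := (List.sum_toFinset f hX).symm
  rw [h1]
  symm
  apply Finset.sum_bij (fun k _ => gd I k)
  · intro k hk
    rw [Finset.mem_filter] at hk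
    exact List.mem_toFinset.2 hk.2
  · intro k _ l _ h
    exact mh_gd_inj I h
  · intro g hgX
    have h2 := List.mem_toFinset.1 hgX
    obtain ⟨k, rfl⟩ := mh_exists_gd (hg g h2)
    exact ⟨k, Finset.mem_filter.2 ⟨Finset.mem_univ _, h2⟩, rfl⟩
  · intro k _
    rfl

theorem mh_R (I : List (Fin 3 → ℕ)) (V : Fin 3 → ℝ) (i : Fin 3) (X : List Good) (hX : X.Nodup)
    (hg : ∀ g ∈ X, g ∈ goods I) :
    R V i X = ∑ k : Fin I.length with gd I k ∈ X, ((gd I k).2 i : ℝ) / V i := by
  unfold R val
  rw [← Finset.sum_div, ← mh_sum I X hX hg fun g => (g.2 i : ℝ)]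
  congr 1
  rw [Nat.cast_list_sum, List.map_map]
  rfl

/-- the extension of an assignment of the indices to goods -/
def ext (I : List (Fin 3 → ℕ)) (σ : Fin I.length → Fin 3) (g : Good) : Fin 3 :=
  if h : g.1 < I.length then σ ⟨g.1, h⟩ else 0

theorem ext_gd (I : List (Fin 3 → ℕ)) (σ : Fin I.length → Fin 3) (k : Fin I.length) :
    ext I σ (gd I k) = σ k := by
  unfold ext gd
  simp

theorem mh_R_filter (I : List (Fin 3 → ℕ)) (V : Fin 3 → ℝ) (i : Fin 3) (X : List Good)
    (hX : X.Nodup) (hg : ∀ g ∈ X, g ∈ goods I) (σ : Fin I.length → Fin 3) (j : Fin 3) :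
    R V i (X.filter fun g => decide (ext I σ g = j)) =
      ∑ k : Fin I.length with gd I k ∈ X, if σ k = j then ((gd I k).2 i : ℝ) / V i else 0 := by
  rw [mh_R I V i _ (hX.filter _) fun g h => hg g (List.mem_filter.1 h).1]
  rw [← Finset.sum_filter]
  apply Finset.sum_congr
  · ext k
    simp only [Finset.mem_filter, Finset.mem_univ, true_and, List.mem_filter, decide_eq_true_eq,
      ext_gd]
  · intro k _
    rfl


/-! ### solved triples -/

theorem mh_solve {V : Fin 3 → ℝ} (hV : ∀ i, 0 < V i) (Q : Part) {a b c : Fin 3} (hab : a ≠ b)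
    (hca : c ≠ a) (hcb : c ≠ b) (h01 : ok a (Q 0) (Q 1) = true) (h10 : ok a (Q 1) (Q 0) = true)
    (ha0 : R V a (Q 2) ≤ R V a (Q 0)) (ha1 : R V a (Q 2) ≤ R V a (Q 1))
    (hb : 2 * R V b (Q 2) ≤ R V b (Q 0) + R V b (Q 1))
    (hc0 : R V c (Q 0) ≤ R V c (Q 2)) (hc1 : R V c (Q 1) ≤ R V c (Q 2)) : solved Q := by
  have fa0 : feas a Q 0 = true := by
    rw [feas_iff, forall_fin3]
    exact ⟨ok_of_le le_rfl, h01, ok_of_R hV ha0⟩
  have fa1 : feas a Q 1 = true := by
    rw [feas_iff, forall_fin3]
    exact ⟨h10, ok_of_le le_rfl, ok_of_R hV ha1⟩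
  have fc : feas c Q 2 = true := by
    rw [feas_iff, forall_fin3]
    exact ⟨ok_of_R hV hc0, ok_of_R hV hc1, ok_of_le le_rfl⟩
  rcases le_total (R V b (Q 0)) (R V b (Q 1)) with h | h
  · have fb : feas b Q 1 = true := by
      rw [feas_iff, forall_fin3]
      exact ⟨ok_of_R hV h, ok_of_le le_rfl, ok_of_R hV (by linarith)⟩
    exact solved_of hab hca hcb (by decide : (0 : Fin 3) ≠ 1) (by decide : (0 : Fin 3) ≠ 2)
      (by decide : (1 : Fin 3) ≠ 2) fa0 fb fc
  · have fb : feas b Q 0 = true := by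
      rw [feas_iff, forall_fin3]
      exact ⟨ok_of_le le_rfl, ok_of_R hV h, ok_of_R hV (by linarith)⟩
    exact solved_of hab hca hcb (by decide : (1 : Fin 3) ≠ 0) (by decide : (1 : Fin 3) ≠ 2)
      (by decide : (0 : Fin 3) ≠ 2) fa1 fb fc

/-- the data of an instance -/
structure Data (I : List (Fin 3 → ℕ)) (V : Fin 3 → ℝ) (mu : ℝ) : Prop where
  pos : ∀ i, 0 < V i
  tot : ∀ i, (val i (goods I) : ℝ) = V i
  mu0 : 0 < mu
  le : ∀ i, ∀ g ∈ goods I, (g.2 i : ℝ) / V i ≤ mu

section data

variable {I : List (Fin 3 → ℕ)} {V : Fin 3 → ℝ} {mu : ℝ}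

theorem Data.one (D : Data I V mu) (i : Fin 3) : R V i (goods I) = 1 := by
  unfold R
  rw [D.tot]
  exact div_self (D.pos i).ne'

theorem Data.sum_one (D : Data I V mu) (i : Fin 3) :
    ∑ k : Fin I.length, ((gd I k).2 i : ℝ) / V i = 1 := by
  rw [← D.one i, mh_R I V i _ (mh_goods_nodup I) fun g h => h]
  apply Finset.sum_congr
  · ext k
    simp [mh_gd_mem]
  · intro k _
    rfl

theorem Data.maxv_le (D : Data I V mu) (i : Fin 3) : (maxv i (goods I) : ℝ) / V i ≤ mu := by
  rcases maxv_mem i (goods I) with h | ⟨g, hg, h⟩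
  · rw [h]
    simpa using D.mu0.le
  · rw [← h]
    exact D.le i g hg

theorem Data.close (D : Data I V mu) {i : Fin 3} {X Y : List Good} (hX : ∀ g ∈ X, g ∈ goods I)
    (hY : ∀ g ∈ Y, g ∈ goods I) (hXl : X.length ≤ (goods I).length)
    (hYl : Y.length ≤ (goods I).length) (h : wsum (KK (goods I)) i X = wsum (KK (goods I)) i Y) :
    |R V i X - R V i Y| ≤ mu / 8 := by
  have h1 := wt_err hX hY hXl hYl h
  have h2 := wt_err hY hX hYl hXl h.symm
  have h1' : (8 : ℝ) * val i X ≤ 8 * val i Y + maxv i (goods I) := by exact_mod_cast h1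
  have h2' : (8 : ℝ) * val i Y ≤ 8 * val i X + maxv i (goods I) := by exact_mod_cast h2
  have h3 := D.maxv_le i
  have hp := D.pos i
  rw [div_le_iff₀ hp] at h3
  have e1 : R V i X * V i = val i X := div_mul_cancel₀ _ hp.ne'
  have e2 : R V i Y * V i = val i Y := div_mul_cancel₀ _ hp.ne'
  rw [abs_le]
  constructor
  · have : (R V i X - R V i Y + mu / 8) * V i ≥ 0 := by nlinarith
    have := nonneg_of_mul_nonneg_left this hp
    linarith
  · have : (R V i Y - R V i X + mu / 8) * V i ≥ 0 := by nlinarith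
    have := nonneg_of_mul_nonneg_left this hp
    linarith

/-- a representative of an assignment of the goods of `X` -/
theorem Data.rep (D : Data I V mu) (X : List Good) (hX : X.Nodup) (hg : ∀ g ∈ X, g ∈ goods I)
    (hl : X.length ≤ (goods I).length) (σ : Fin I.length → Fin 3) :
    ∃ P ∈ reps (KK (goods I)) X, (P 0 ++ P 1 ++ P 2).Perm X ∧ ∀ i j,
      |R V i (P j) - ∑ k : Fin I.length with gd I k ∈ X,
        if σ k = j then ((gd I k).2 i : ℝ) / V i else 0| ≤ mu / 8 := by
  obtain ⟨P, hP, hw⟩ := reps_complete (KK (goods I)) X (ext I σ)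
  have hp := reps_perm hP
  refine ⟨P, hP, hp, ?_⟩
  intro i j
  rw [← mh_R_filter I V i X hX hg σ j]
  have hmem : ∀ g ∈ P j, g ∈ P 0 ++ P 1 ++ P 2 := by
    intro g hgj
    fin_cases j <;> simp_all
  have hlen : (P j).length ≤ (P 0 ++ P 1 ++ P 2).length := by
    rw [List.length_append, List.length_append]
    fin_cases j <;> simp <;> omega
  refine D.close (fun g h => hg g (hp.subset (hmem g h)))
    (fun g h => hg g (List.mem_filter.1 h).1) ?_ ?_ (hw i j)
  · rw [hp.length_eq] at hlen
    exact le_trans hlen hl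
  · exact le_trans (List.length_filter_le _ _) hl

/-- distance of two agents -/
noncomputable def dst (I : List (Fin 3 → ℕ)) (V : Fin 3 → ℝ) (i j : Fin 3) : ℝ :=
  ∑ k : Fin I.length, |((gd I k).2 i : ℝ) / V i - ((gd I k).2 j : ℝ) / V j|

theorem dst_comm (I : List (Fin 3 → ℕ)) (V : Fin 3 → ℝ) (i j : Fin 3) :
    dst I V i j = dst I V j i :=
  Finset.sum_congr rfl fun _ _ => abs_sub_comm _ _

theorem Data.case1 (D : Data I V mu) (a : Fin 3) (acc : Part)
    (hd : ∀ i j, i ≠ j → 1176 * mu ≤ dst I V i j) :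
    efx (run a (KK (goods I)) (srt a a (goods I)) acc) = true := by
  obtain ⟨σ, hσ⟩ := EFD.case1 (fun i (k : Fin I.length) => ((gd I k).2 i : ℝ) / V i)
    (fun i k => div_nonneg (Nat.cast_nonneg _) (D.pos i).le) D.sum_one mu
    (fun i k => D.le i _ (mh_gd_mem I k)) D.mu0 hd
  have hperm := mh_srt_perm a a (goods I)
  obtain ⟨P, hP, hpp, hc⟩ := D.rep (srt a a (goods I)) (hperm.nodup_iff.2 (mh_goods_nodup I))
    (fun g h => hperm.subset h) hperm.length_eq.le σ
  refine run_spec a _ _ _ (srt a a (goods I)).length 0 le_rfl P (by rw [List.take_length]; exact hP)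
    ?_
  have e : cand a P ((srt a a (goods I)).drop (srt a a (goods I)).length) 0 = P := by
    rw [List.drop_length]
    rfl
  rw [e]
  refine ⟨id, Function.injective_id, fun i => feas_iff.2 fun k => ?_⟩
  by_cases hk : k = i
  · rw [hk]
    exact ok_of_le le_rfl
  · have hu : (Finset.univ.filter fun k : Fin I.length => gd I k ∈ srt a a (goods I)) =
        Finset.univ := by
      ext k
      simp [hperm.mem_iff, mh_gd_mem]
    have h1 := hc i k
    have h2 := hc i i
    rw [hu, abs_le] at h1 h2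
    have h3 := hσ i k (Ne.symm hk)
    exact ok_of_R D.pos (by simp only [id]; linarith)

theorem half_dist {ι : Type} [Fintype ι] [DecidableEq ι] (f : ι → ℝ) (h : ∑ k, f k = 0)
    (U : Finset ι) : |∑ k ∈ U, f k| ≤ (∑ k, |f k|) / 2 := by
  have h1 : ∑ k ∈ U, f k + ∑ k ∈ Uᶜ, f k = 0 := by
    rw [Finset.sum_add_sum_compl, h]
  have h2 : |∑ k ∈ U, f k| ≤ ∑ k ∈ U, |f k| := Finset.abs_sum_le_sum_abs _ _
  have h3 : |∑ k ∈ Uᶜ, f k| ≤ ∑ k ∈ Uᶜ, |f k| := Finset.abs_sum_le_sum_abs _ _
  have h4 : ∑ k ∈ U, |f k| + ∑ k ∈ Uᶜ, |f k| = ∑ k, |f k| := Finset.sum_add_sum_compl _ _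
  have h5 : |∑ k ∈ U, f k| = |∑ k ∈ Uᶜ, f k| := by
    rw [eq_neg_of_add_eq_zero_left h1, abs_neg]
  linarith

theorem Data.near (D : Data I V mu) {a b : Fin 3} (hab : dst I V a b ≤ 1176 * mu)
    {X : List Good} (hX : X.Nodup) (hg : ∀ g ∈ X, g ∈ goods I) :
    |R V a X - R V b X| ≤ 588 * mu := by
  classical
  rw [mh_R I V a X hX hg, mh_R I V b X hX hg, ← Finset.sum_sub_distrib]
  refine (half_dist (fun k : Fin I.length => ((gd I k).2 a : ℝ) / V a - ((gd I k).2 b : ℝ) / V b)
    ?_ _).trans ?_
  · rw [Finset.sum_sub_distrib, D.sum_one, D.sum_one, sub_self]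
  · unfold dst at hab
    linarith

theorem Data.mu_le (D : Data I V mu) {a c : Fin 3} (hac : 30000 * mu ≤ dst I V a c) :
    mu ≤ 1 / 15000 := by
  have h1 : dst I V a c ≤ ∑ k : Fin I.length,
      (((gd I k).2 a : ℝ) / V a + ((gd I k).2 c : ℝ) / V c) := by
    apply Finset.sum_le_sum
    intro k _
    have h1 : (0 : ℝ) ≤ ((gd I k).2 a : ℝ) / V a := div_nonneg (Nat.cast_nonneg _) (D.pos a).le
    have h2 : (0 : ℝ) ≤ ((gd I k).2 c : ℝ) / V c := div_nonneg (Nat.cast_nonneg _) (D.pos c).le
    rw [abs_le]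
    constructor <;> linarith
  rw [Finset.sum_add_distrib, D.sum_one, D.sum_one] at h1
  linarith

theorem R_cons (V : Fin 3 → ℝ) (i : Fin 3) (g : Good) (X : List Good) :
    R V i (g :: X) = (g.2 i : ℝ) / V i + R V i X := by
  unfold R
  rw [val_cons]
  push_cast
  ring

theorem R_drop (V : Fin 3 → ℝ) (i : Fin 3) (N : List Good) {t : ℕ} (ht : t < N.length) :
    R V i (N.drop t) = ((N[t]).2 i : ℝ) / V i + R V i (N.drop (t + 1)) := by
  rw [List.drop_eq_getElem_cons ht, R_cons]

theorem Data.case2 (D : Data I V mu) {a b c : Fin 3} (hab : a ≠ b) (hca : c ≠ a) (hcb : c ≠ b)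
    (hd : dst I V a b ≤ 1176 * mu) (hf : 30000 * mu ≤ dst I V a c) (acc : Part) :
    efx (run a (KK (goods I)) (srt a a (goods I)) acc) = true := by
  classical
  have hmu := D.mu_le hf
  have hm0 := D.mu0
  have hperm := mh_srt_perm a a (goods I)
  have hsort := mh_srt_sorted a (goods I)
  set N := srt a a (goods I) with hN
  have hnd : N.Nodup := hperm.nodup_iff.2 (mh_goods_nodup I)
  have hmem : ∀ g ∈ N, g ∈ goods I := fun g h => hperm.subset h
  have hone : ∀ i, R V i N = 1 := fun i => by rw [R_perm hperm, D.one]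
  have hlen : N.length = (goods I).length := hperm.length_eq
  have hsplit : ∀ i t, R V i (N.take t) + R V i (N.drop t) = 1 := fun i t => by
    rw [← R_append, List.take_append_drop, hone]
  obtain ⟨s, t, hst, htn, hcase⟩ := seg N.length (fun t => R V a (N.drop t))
    (fun t => R V c (N.drop t)) mu hm0 hmu (by simp [hone]) (by simp [R_nil])
    (fun t ht => by
      rw [R_drop V a N ht]
      have := div_nonneg (Nat.cast_nonneg (α := ℝ) ((N[t]).2 a)) (D.pos a).le
      linarith)
    (fun t ht => by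
      rw [R_drop V a N ht]
      have := D.le a _ (hmem _ (List.getElem_mem ht))
      linarith) (by simp [R_nil])
    (fun t ht => by
      rw [R_drop V c N ht]
      have := div_nonneg (Nat.cast_nonneg (α := ℝ) ((N[t]).2 c)) (D.pos c).le
      linarith)
  -- the maximal value
  have hM : ∀ g ∈ N, g.2 a ≤ maxv a (goods I) := fun g hg => le_maxv (hmem g hg)
  have hMmu := D.maxv_le a
  have hval : ∀ {X Y : List Good}, val a X ≤ val a Y + maxv a (goods I) →
      R V a X ≤ R V a Y + mu := by
    intro X Y h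
    have h' : (val a X : ℝ) ≤ val a Y + maxv a (goods I) := by exact_mod_cast h
    have : R V a X ≤ R V a Y + (maxv a (goods I) : ℝ) / V a := by
      unfold R
      rw [← add_div]
      exact div_le_div_of_nonneg_right h' (D.pos a).le
    linarith
  have hnear : ∀ t, |R V a (N.drop t) - R V b (N.drop t)| ≤ 588 * mu := fun t =>
    D.near hd (hnd.sublist (List.drop_sublist _ _))
      fun g h => hmem g ((List.drop_sublist _ _).subset h)
  rcases hcase with ⟨hs0, hC, hA⟩ | ⟨h9, h10, h30, hA3, hC2⟩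
  · -- option (A)
    subst hs0
    refine run_spec a _ N acc 0 t (Nat.zero_le _) (fun _ => []) (by simp [reps]) ?_
    have hl := lpt2_spec a (fun _ => []) (N.take t)
      (hsort.sublist (List.take_sublist _ _)) (by intro j _ g hg; simp at hg)
      (Or.inl ⟨rfl, rfl⟩) (maxv a (goods I)) (by intro j _ g hg; simp at hg)
      (fun g hg => hM g ((List.take_sublist _ _).subset hg))
    obtain ⟨e2, ok1, ok2, hv1, hv2, T0, T1, hT, eT0, eT1⟩ := hl
    have hd3 := dump_spec (lpt2 a 2 (fun _ => []) (N.take t)) (N.drop t)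
    obtain ⟨d0, d1, d2⟩ := hd3
    have hc : cand a (fun _ => []) (N.drop 0) t =
        dump (lpt2 a 2 (fun _ => []) (N.take t)) (N.drop t) := rfl
    rw [hc]
    have r2 : ∀ i, R V i (dump (lpt2 a 2 (fun _ => []) (N.take t)) (N.drop t) 2) =
        R V i (N.drop t) := by
      intro i
      rw [d2, e2, R_append, R_reverse, R_nil, add_zero]
    have r01 : ∀ i, R V i (dump (lpt2 a 2 (fun _ => []) (N.take t)) (N.drop t) 0) +
        R V i (dump (lpt2 a 2 (fun _ => []) (N.take t)) (N.drop t) 1) = 1 - R V i (N.drop t) := by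
      intro i
      rw [d0, d1, eT0, eT1, List.append_nil, List.append_nil, ← R_append, R_perm hT]
      linarith [hsplit i t]
    have hv1' := hval hv1
    have hv2' := hval hv2
    rw [← d0, ← d1] at hv1' hv2' ok1 ok2
    have ra := r01 a
    have rb := r01 b
    have rc := r01 c
    have n0 := abs_le.1 (hnear t)
    have p0 := R_nonneg D.pos c (dump (lpt2 a 2 (fun _ => []) (N.take t)) (N.drop t) 0)
    have p1 := R_nonneg D.pos c (dump (lpt2 a 2 (fun _ => []) (N.take t)) (N.drop t) 1)
    refine mh_solve D.pos _ hab hca hcb ok1 ok2 ?_ ?_ ?_ ?_ ?_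
    · rw [r2]; linarith
    · rw [r2]; linarith
    · rw [r2]; linarith
    · rw [r2]; linarith
    · rw [r2]; linarith
  · -- option (B)
    have hXnd : (N.take s).Nodup := hnd.sublist (List.take_sublist _ _)
    have hXm : ∀ g ∈ N.take s, g ∈ goods I := fun g h =>
      hmem g ((List.take_sublist _ _).subset h)
    have hUs : ∀ i, ∑ k : Fin I.length with gd I k ∈ N.take s, ((gd I k).2 i : ℝ) / V i =
        1 - R V i (N.drop s) := by
      intro i
      rw [← mh_R I V i _ hXnd hXm]
      linarith [hsplit i s]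
    have hdC : R V c (N.drop t) ≤ R V c (N.drop s) := by
      have : R V c (N.drop s) = R V c ((N.drop s).take (t - s)) + R V c (N.drop t) := by
        have e : N.drop t = (N.drop s).drop (t - s) := by
          rw [List.drop_drop]
          congr 1
          omega
        rw [e, ← R_append, List.take_append_drop]
      rw [this]
      linarith [R_nonneg D.pos c ((N.drop s).take (t - s))]
    obtain ⟨σ, g1, g2, g3, g4⟩ := caseB (fun k : Fin I.length => ((gd I k).2 a : ℝ) / V a)
      (fun k => ((gd I k).2 c : ℝ) / V c) mu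
      (fun k => div_nonneg (Nat.cast_nonneg _) (D.pos a).le)
      (fun k => div_nonneg (Nat.cast_nonneg _) (D.pos c).le)
      (fun k => D.le a _ (mh_gd_mem I k)) (fun k => D.le c _ (mh_gd_mem I k)) (D.sum_one a)
      (D.sum_one c) hm0 hmu hf (Finset.univ.filter fun k => gd I k ∈ N.take s)
      (R V a (N.drop t)) (R V c (N.drop t)) (R V a (N.drop s) - R V a (N.drop t))
      (R V c (N.drop s) - R V c (N.drop t)) (by rw [hUs a]; ring) (by rw [hUs c]; ring)
      (by linarith) (by linarith) (by linarith) (by linarith) (R_nonneg D.pos a _) hA3 hC2.le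
    obtain ⟨P, hP, hpp, hcl⟩ := D.rep (N.take s) hXnd hXm
      (by rw [List.length_take]; omega) σ
    refine run_spec a _ N acc s (t - s) (by omega) P hP ?_
    have eW : (N.drop s).drop (t - s) = N.drop t := by
      rw [List.drop_drop]
      congr 1
      omega
    have hT' : ∀ i, R V i ((N.drop s).take (t - s)) = R V i (N.drop s) - R V i (N.drop t) := by
      intro i
      have : R V i ((N.drop s).take (t - s)) + R V i ((N.drop s).drop (t - s)) =
          R V i (N.drop s) := by rw [← R_append, List.take_append_drop]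
      rw [eW] at this
      linarith
    have hPX : ∀ j : Fin 3, ∀ g ∈ P j, g ∈ N.take s := by
      intro j g hg
      apply hpp.subset
      fin_cases j <;> simp_all
    have ca0 := abs_le.1 (hcl a 0)
    have ca1 := abs_le.1 (hcl a 1)
    have ca2 := abs_le.1 (hcl a 2)
    have cc0 := abs_le.1 (hcl c 0)
    have cc1 := abs_le.1 (hcl c 1)
    have cc2 := abs_le.1 (hcl c 2)
    have g3' := abs_le.1 g3
    have g4' := abs_le.1 g4
    have hTa := hT' a
    have hTc := hT' c
    have hle : ∀ {X Y Z : List Good}, R V a X ≤ R V a Y + R V a Z →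
        val a X ≤ val a Y + val a Z := by
      intro X Y Z h
      rw [← R_append, R_le_iff D.pos] at h
      unfold val at *
      rw [List.map_append, List.sum_append] at h
      exact h
    have hl := lpt2_spec a P ((N.drop s).take (t - s))
      (hsort.sublist ((List.take_sublist _ _).trans (List.drop_sublist _ _)))
      (by
        intro j _ g hg h hh
        have hsp := hsort
        rw [← List.take_append_drop s N, List.pairwise_append] at hsp
        exact hsp.2.2 g (hPX j g hg) h ((List.take_sublist _ _).subset hh))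
      (Or.inr ⟨hle (by linarith), hle (by linarith)⟩) (maxv a (goods I))
      (fun j _ g hg => hM g ((List.take_sublist _ _).subset (hPX j g hg)))
      (fun g hg => hM g (((List.take_sublist _ _).trans (List.drop_sublist _ _)).subset hg))
    obtain ⟨e2, ok1, ok2, hv1, hv2, T0, T1, hT, eT0, eT1⟩ := hl
    obtain ⟨d0, d1, d2⟩ := dump_spec (lpt2 a 2 P ((N.drop s).take (t - s))) (N.drop t)
    have hc : cand a P (N.drop s) (t - s) =
        dump (lpt2 a 2 P ((N.drop s).take (t - s))) (N.drop t) := by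
      unfold cand
      rw [eW]
    rw [hc]
    set Q := dump (lpt2 a 2 P ((N.drop s).take (t - s))) (N.drop t) with hQ
    have r2 : ∀ i, R V i (Q 2) = R V i (N.drop t) + R V i (P 2) := by
      intro i
      rw [d2, e2, R_append, R_reverse]
    have hPsum : ∀ i, R V i (P 0) + R V i (P 1) + R V i (P 2) = 1 - R V i (N.drop s) := by
      intro i
      rw [← R_append, ← R_append, R_perm hpp]
      linarith [hsplit i s]
    have r01 : ∀ i, R V i (Q 0) + R V i (Q 1) = 1 - R V i (Q 2) := by
      intro i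
      have h1 := hT' i
      rw [← R_perm hT, R_append] at h1
      rw [r2, d0, d1, eT0, eT1, R_append, R_append]
      linarith [hPsum i]
    have q0 : ∀ i, R V i (Q 0) = R V i T0 + R V i (P 0) := by
      intro i
      rw [d0, eT0, R_append]
    have q1 : ∀ i, R V i (Q 1) = R V i T1 + R V i (P 1) := by
      intro i
      rw [d1, eT1, R_append]
    have hTs : R V c T0 + R V c T1 = R V c (N.drop s) - R V c (N.drop t) := by
      rw [← R_append, R_perm hT, hTc]
    have hv1' := hval hv1
    have hv2' := hval hv2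
    rw [← d0, ← d1] at hv1' hv2' ok1 ok2
    have ra := r01 a
    have rb := r01 b
    have rc := r01 c
    have ra2 := r2 a
    have rb2 := r2 b
    have rc2 := r2 c
    have q0c := q0 c
    have q1c := q1 c
    have t0 := R_nonneg D.pos c T0
    have t1 := R_nonneg D.pos c T1
    -- agent b
    have hQ2 : (Q 2).Nodup ∧ ∀ g ∈ Q 2, g ∈ goods I := by
      rw [d2, e2]
      constructor
      · have h1 : (N.take s ++ N.drop s).Nodup := by rw [List.take_append_drop]; exact hnd
        rw [List.nodup_append] at h1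
        have hP2 : (P 2).Nodup := by
          have := hpp.nodup_iff.2 hXnd
          exact this.sublist (List.sublist_append_right _ _)
        rw [List.nodup_append]
        refine ⟨List.nodup_reverse.2 (hnd.sublist (List.drop_sublist _ _)), hP2, ?_⟩
        intro x hx y hy hxy
        rw [List.mem_reverse] at hx
        have hx' : x ∈ N.drop s := by
          rw [← eW] at hx
          exact (List.drop_sublist _ _).subset hx
        exact h1.2.2 y (hPX 2 y hy) x hx' hxy.symm
      · intro g hg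
        rw [List.mem_append, List.mem_reverse] at hg
        rcases hg with h | h
        · exact hmem g ((List.drop_sublist _ _).subset h)
        · exact hXm g (hPX 2 g h)
    have nb := abs_le.1 (D.near hd hQ2.1 hQ2.2)
    refine mh_solve D.pos _ hab hca hcb ok1 ok2 ?_ ?_ ?_ ?_ ?_
    · linarith
    · linarith
    · linarith
    · linarith
    · linarith

end data

/-! ### the result of the algorithm -/

theorem best2_perm (I : List (Fin 3 → ℕ)) :
    (best2 I 0 ++ best2 I 1 ++ best2 I 2).Perm (goods I) := by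
  unfold best2
  refine run_perm _ _ _ _ _ (mh_srt_perm _ _ _) (run_perm _ _ _ _ _ (mh_srt_perm _ _ _)
    (run_perm _ _ _ _ _ (mh_srt_perm _ _ _) ?_))
  simp

theorem best2_of_run {I : List (Fin 3 → ℕ)} (a : Fin 3)
    (h : ∀ acc, efx (run a (KK (goods I)) (srt a a (goods I)) acc) = true) :
    efx (best2 I) = true := by
  unfold best2
  have h3 : a = 0 ∨ a = 1 ∨ a = 2 := by
    fin_cases a <;> simp
  rcases h3 with rfl | rfl | rfl
  · have he := h ![goods I, [], []]
    rw [run_acc 1 _ _ _ he, run_acc 2 _ _ _ he]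
    exact he
  · have he := h (run 0 (KK (goods I)) (srt 0 0 (goods I)) ![goods I, [], []])
    rw [run_acc 2 _ _ _ he]
    exact he
  · exact h _

theorem val_zero_of {i : Fin 3} {X Y : List Good} (h : val i Y = 0) (hX : ∀ g ∈ X, g ∈ Y) :
    val i X = 0 := by
  unfold val at *
  rw [List.sum_eq_zero_iff_forall_eq_nat] at h ⊢
  intro n hn
  obtain ⟨g, hg, rfl⟩ := List.mem_map.1 hn
  exact h _ (List.mem_map_of_mem (hX g hg))

/-- an agent who values nothing -/
theorem case0 {I : List (Fin 3 → ℕ)} {a b c : Fin 3} (hab : a ≠ b) (hca : c ≠ a) (hcb : c ≠ b)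
    (hc : val c (goods I) = 0) : efx (best2 I) = true := by
  refine best2_of_run a fun acc => ?_
  have hperm := mh_srt_perm a a (goods I)
  have hsort := mh_srt_sorted a (goods I)
  set N := srt a a (goods I) with hN
  refine run_spec a _ N acc 0 N.length (Nat.zero_le _) (fun _ => []) (by simp [reps]) ?_
  have hl := lpt2_spec a (fun _ => []) N hsort (by intro j _ g hg; simp at hg)
    (Or.inl ⟨rfl, rfl⟩) (maxv a (goods I)) (by intro j _ g hg; simp at hg)
    (fun g hg => le_maxv (hperm.subset hg))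
  obtain ⟨e2, ok1, ok2, _, _, T0, T1, hT, eT0, eT1⟩ := hl
  have hcd : cand a (fun _ => []) (N.drop 0) N.length = lpt2 a 2 (fun _ => []) N := by
    show dump (lpt2 a 2 (fun _ => []) (N.take N.length)) (N.drop N.length) = _
    rw [List.take_length, List.drop_length]
    rfl
  rw [hcd]
  set Q := lpt2 a 2 (fun _ => []) N with hQ
  have hz : ∀ j, val c (Q j) = 0 := by
    intro j
    refine val_zero_of hc fun g hg => ?_
    refine hperm.subset (hT.subset ?_)
    have h3 : j = 0 ∨ j = 1 ∨ j = 2 := by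
      fin_cases j <;> simp
    rcases h3 with rfl | rfl | rfl
    · rw [eT0] at hg
      simpa using Or.inl hg
    · rw [eT1] at hg
      simpa using Or.inr hg
    · rw [e2] at hg
      simp at hg
  have hv2 : ∀ i, val i (Q 2) = 0 := by
    intro i
    rw [e2]
    rfl
  have fc : feas c Q 2 = true := by
    rw [feas_iff]
    intro k
    exact ok_of_le (by rw [hz, hz])
  have fa0 : feas a Q 0 = true := by
    rw [feas_iff, forall_fin3]
    exact ⟨ok_of_le le_rfl, ok1, ok_of_le (by rw [hv2]; exact Nat.zero_le _)⟩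
  have fa1 : feas a Q 1 = true := by
    rw [feas_iff, forall_fin3]
    exact ⟨ok2, ok_of_le le_rfl, ok_of_le (by rw [hv2]; exact Nat.zero_le _)⟩
  rcases le_total (val b (Q 0)) (val b (Q 1)) with h | h
  · have fb : feas b Q 1 = true := by
      rw [feas_iff, forall_fin3]
      exact ⟨ok_of_le h, ok_of_le le_rfl, ok_of_le (by rw [hv2]; exact Nat.zero_le _)⟩
    exact solved_of hab hca hcb (by decide : (0 : Fin 3) ≠ 1) (by decide : (0 : Fin 3) ≠ 2)
      (by decide : (1 : Fin 3) ≠ 2) fa0 fb fc
  · have fb : feas b Q 0 = true := by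
      rw [feas_iff, forall_fin3]
      exact ⟨ok_of_le le_rfl, ok_of_le h, ok_of_le (by rw [hv2]; exact Nat.zero_le _)⟩
    exact solved_of hab hca hcb (by decide : (1 : Fin 3) ≠ 0) (by decide : (1 : Fin 3) ≠ 2)
      (by decide : (0 : Fin 3) ≠ 2) fa1 fb fc

theorem best2_zero {I : List (Fin 3 → ℕ)} (c : Fin 3) (hc : val c (goods I) = 0) :
    efx (best2 I) = true := by
  have h3 : c = 0 ∨ c = 1 ∨ c = 2 := by
    fin_cases c <;> simp
  rcases h3 with rfl | rfl | rfl
  · exact case0 (a := 1) (b := 2) (by decide) (by decide) (by decide) hc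
  · exact case0 (a := 0) (b := 2) (by decide) (by decide) (by decide) hc
  · exact case0 (a := 0) (b := 1) (by decide) (by decide) (by decide) hc

theorem dst_self (I : List (Fin 3 → ℕ)) (V : Fin 3 → ℝ) (i : Fin 3) : dst I V i i = 0 := by
  unfold dst
  simp

/-- some two agents are far apart -/
theorem best2_far {I : List (Fin 3 → ℕ)} {V : Fin 3 → ℝ} {mu : ℝ} (D : Data I V mu)
    {i j : Fin 3} (hf : 30000 * mu ≤ dst I V i j) : efx (best2 I) = true := by
  have hm0 := D.mu0
  have key : ∀ a b c : Fin 3, a ≠ b → c ≠ a → c ≠ b → dst I V a b ≤ 1176 * mu →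
      30000 * mu ≤ dst I V a c → efx (best2 I) = true := fun a b c h1 h2 h3 h4 h5 =>
    best2_of_run a fun acc => D.case2 h1 h2 h3 h4 h5 acc
  by_cases hall : ∀ i j, i ≠ j → 1176 * mu ≤ dst I V i j
  · exact best2_of_run 0 fun acc => D.case1 0 acc hall
  · push Not at hall
    obtain ⟨a, b, hab, hn⟩ := hall
    have hij : i ≠ j := by
      rintro rfl
      rw [dst_self] at hf
      linarith
    have hnf : ∀ x y : Fin 3, 30000 * mu ≤ dst I V x y → ¬ (x = a ∧ y = b) ∧ ¬ (x = b ∧ y = a) := by
      intro x y h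
      constructor
      · rintro ⟨rfl, rfl⟩
        linarith
      · rintro ⟨rfl, rfl⟩
        rw [dst_comm] at h
        linarith
    have h1 := hnf i j hf
    have hf' : 30000 * mu ≤ dst I V j i := by rw [dst_comm]; exact hf
    have hn' : dst I V b a ≤ 1176 * mu := by rw [dst_comm]; exact hn.le
    -- the far pair shares exactly one agent with the pair `a`, `b`
    have h4 : (i = a ∧ j ≠ a ∧ j ≠ b) ∨ (i = b ∧ j ≠ a ∧ j ≠ b) ∨ (j = a ∧ i ≠ a ∧ i ≠ b) ∨
        (j = b ∧ i ≠ a ∧ i ≠ b) := by
      exact (by decide : ∀ i j a b : Fin 3, i ≠ j → a ≠ b → (¬ (i = a ∧ j = b) ∧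
        ¬ (i = b ∧ j = a)) → (i = a ∧ j ≠ a ∧ j ≠ b) ∨ (i = b ∧ j ≠ a ∧ j ≠ b) ∨
        (j = a ∧ i ≠ a ∧ i ≠ b) ∨ (j = b ∧ i ≠ a ∧ i ≠ b)) i j a b hij hab h1
    rcases h4 with ⟨rfl, h5, h6⟩ | ⟨rfl, h5, h6⟩ | ⟨rfl, h5, h6⟩ | ⟨rfl, h5, h6⟩
    · exact key i b j hab h5 h6 hn.le hf
    · exact key i a j hab.symm h6 h5 hn' hf
    · exact key j b i hab h5 h6 hn.le hf'
    · exact key j a i hab.symm h6 h5 hn' hf'

end Pool.Agent.EFD
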